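import Pool.Agent.N77.GK.Fin

/-!
# Extensions by graph products of finite groups and the Farrell–Jones conjecture

`C` is any class of groups with the closure properties `ClosedE C` which contains the groups `F ⋊ ℤ`
for all free groups `F` and all automorphisms of `F`. All this is published for the class of the
groups that satisfy the K-theoretic Farrell–Jones conjecture with coefficients and finite wreath
products.

Let `N` be a normal subgroup of a group `G` which is the graph product of finite subgroups over a
finite graph, for instance a finitely generated right-angled Coxeter group. If `G ⧸ N` is in `C`, then
`G` is in `C`. There is no condition on the action of `G` on `N`.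

Outline of the proof.

* The graph product `N` over the vertices `X ∪ {v}` is the amalgam of the graph product over `X` and of
  the direct product of the group of `v` and of the graph product over the neighbours of `v` in `X`. The
  homomorphism to the direct product of the graph product over `X` and the group of `v` is injective on
  both factors, so its kernel is free.
* Elements of finite order of an amalgam are conjugate to elements of the factors. So the elements of
  finite order in `N` fall in finitely many conjugacy classes, and a subgroup of finite index of `G` which
  contains `N` maps every element of every vertex group to an `N`-conjugate. It normalizes the kernels of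
  the retractions of `N` to the graph products over sets `X` of vertices.
* By induction over `X` the quotient of this subgroup by the kernel of the retraction for `X` is in `C`.
  In the step from `X` to `X ∪ {v}` one has an extension with free kernel of a subgroup of the product of
  the quotients for `X` and for `{v}`, and the latter is an extension of a group in `C` by a finite group.
-/

set_option autoImplicit false

namespace Pool.Agent.Results.MP_6374fb_al.CoxeterTypeKernels

open Pool.Agent.Y110.FJ (ClosedE)
open Pool.Agent.N77.GP (IsGraphProduct)

theorem result (C : ∀ (G : Type) [Group G], Prop) (hC : ClosedE C)
    (hF : ∀ (X : Type) (α : MulAut (FreeGroup X)),
      C (FreeGroup X ⋊[zpowersHom (MulAut (FreeGroup X)) α] Multiplicative ℤ))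
    (G V : Type) [Group G] [Finite V] (N : Subgroup G) [N.Normal] (Λ : SimpleGraph V)
    (K : V → Subgroup G) (hN : IsGraphProduct Λ K N) (hfin : ∀ v, Finite (K v))
    (hQ : C (G ⧸ N)) : C G :=
  Pool.Agent.N77.GK.gf_main hC hF N Λ K hN hfin hQ

end Pool.Agent.Results.MP_6374fb_al.CoxeterTypeKernels
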