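import Pool.Agent.N59.CR.Reg

/-!
# Directed extensions along regular rays and the Farrell–Jones conjecture

`C` is any class of groups with the closure properties `Closed C` (it contains `ℤ` and is closed under
subgroups, finite products, free products, overgroups of finite index and directed colimits with
arbitrary structure maps), all of which are known for the class of the groups that satisfy the
Farrell–Jones conjecture in algebraic K-theory with coefficients and finite wreath products.

`A 0, A 1, ...` are finite alphabets, and the `n`-th subtree is the tree of the words with letters in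
`A n`, `A (n + 1)`, .... Let `H n` be any groups of automorphisms of the `n`-th subtree, in `C`, with
sections in `H (n + 1)` (for instance, a self-similar group `H` acting on a regular tree: a free group,
`GL_d(ℤ)`, a contracting group, a lamplighter group, the group of all automorphisms of polynomial
activity, or an increasing union of such groups with the finitary automorphisms). Let `ρ 1, …, ρ k` be
rays and `D i n` groups in `C` of automorphisms of the `n`-th subtree which are directed along the
shifted ray `ρ i`: they fix it, their sections on the ray are in `D i (n + 1)`, and the others in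
`H (n + 1)`. Suppose that the rays are regular for `H`: an element of `H n` which maps the shifted
ray `ρ j` to the shifted ray `ρ i` can only exist if `i = j`, and then it acts trivially near the ray. For
countable groups `H n` this holds for all rays outside a meagre set (one ray). Then the group
generated by `H 0` and the `D i 0` is in `C`, and so is every group of automorphisms which is generated by
elements such that their sections of some level `n` are in the group generated by `H n` and the `D i n`.

The case where `H n` is the group of the finitary automorphisms and `k = 1` is the theorem on spinal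
groups in the starting library; here the base `H` is arbitrary, and the elements of `H` have no
contraction property at all.

Outline of the proof. The sections define recursions on the free products `Γ n` of `H n` and the groups
`D i n`. An element `b u b'`, with `b` in `D i n`, `b'` in `D j n`, `u` in `H n`, has sections of the same
form only along the ray `ρ j`, and as long as `u` maps it to `ρ i`; by regularity this comes to an end, or
`i = j` and `u` becomes trivial and `b`, `b'` can be multiplied. So the recursion brings every
element of `Γ n` into the form `a b c` with `a`, `c` in `H m` and `b` in one group `D i m`. If such an element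
acts trivially then `b` acts as an element of `H m`, and by regularity it acts trivially near the ray, so
that it is killed by a power of the recursion. Therefore the image of `Γ n` is a directed colimit
of subgroups of iterated wreath products of the groups `Γ m`.
-/

set_option autoImplicit false

namespace Pool.Agent.Results.MP_6374fb_al.DirectedExtensions

open Pool.Agent.Y462.SS (Closed IsTree T root sec)
open Pool.Agent.Y524S (Tm Vs)
open Pool.Agent.N59.CR (pre)

/-- `K` is (isomorphic to) a group of automorphisms of the tree of the words with letters in `A 0`,
`A 1`, ... (regarded as automorphisms of the tree of all words over `X` which do nothing outside),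
generated by a set `S` such that for each `s` in `S` there is a level `n` at which all sections of `s`
are in `R n`. -/
def GeneratedBy {X : Type} (A : ℕ → Set X) (R : ℕ → Set (List X → List X)) (K : Type) [Group K] :
    Prop :=
  ∃ (f : K →* Equiv.Perm (List X)) (S : Set K), Function.Injective f ∧
    Subgroup.closure S = ⊤ ∧ ∀ s ∈ S, IsTree (f s) ∧
      (∀ (v : List X) (x : X) (w : List X), x ∉ A v.length →
        f s (v ++ x :: w) = f s v ++ x :: w) ∧
      ∃ n : ℕ, ∀ v : List X, v.length = n → ∃ r ∈ R n, ∀ w, f s (v ++ w) = f s v ++ r w

/-- `a` is an automorphism of the `n`-th subtree: it does nothing outside the words with letters in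
`A n`, `A (n + 1)`, ... -/
def OnSubtree {X : Type} (A : ℕ → Set X) (n : ℕ) (a : T X) : Prop :=
  ∀ (v : List X) (x : X) (w : List X), x ∉ A (n + v.length) → a.1 (v ++ x :: w) = a.1 v ++ x :: w

/-- The groups `H n`, and the groups `D i n` directed along the rays `ρ i`, which are regular
for `H`. -/
structure RegularData {X : Type} (A : ℕ → Set X) (H : ℕ → Subgroup (T X)) {k : ℕ}
    (ρ : Fin k → ℕ → X) (D : Fin k → ℕ → Subgroup (T X)) : Prop where
  /-- the elements of `H n` are automorphisms of the `n`-th subtree -/
  base : ∀ n, ∀ a ∈ H n, OnSubtree A n a
  /-- the sections of `H n` at the letters are in `H (n + 1)` -/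
  sections : ∀ n, ∀ a ∈ H n, ∀ x, sec a x ∈ H (n + 1)
  /-- the elements of `D i n` are automorphisms of the `n`-th subtree -/
  directed : ∀ i n, ∀ b ∈ D i n, OnSubtree A n b
  /-- they fix the ray -/
  fixes : ∀ i n, ∀ b ∈ D i n, root b (ρ i n) = ρ i n
  /-- the section on the ray is in `D i (n + 1)` -/
  onRay : ∀ i n, ∀ b ∈ D i n, sec b (ρ i n) ∈ D i (n + 1)
  /-- the sections off the ray are in `H (n + 1)` -/
  offRay : ∀ i n, ∀ b ∈ D i n, ∀ x, x ≠ ρ i n → sec b x ∈ H (n + 1)
  /-- an element of `H n` which maps the ray `ρ j` (from its `n`-th letter on) to `ρ i` exists only for
  `i = j`, and acts trivially near the ray -/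
  regular : ∀ i j n, ∀ u ∈ H n, (∀ l, u.1 (pre (ρ j) n l) = pre (ρ i) n l) →
    i = j ∧ ∃ l, ∀ w, u.1 (pre (ρ j) n l ++ w) = u.1 (pre (ρ j) n l) ++ w

/-- Let `C` be a class of groups with the closure properties `Closed C`. Let `H n` be groups in `C` of
automorphisms of the `n`-th subtree, with sections in `H (n + 1)`, and let `D i n` be groups in `C` of
automorphisms of the `n`-th subtree directed along rays `ρ i`, `i < k`, which are regular for `H`, with
sections off the rays in `H (n + 1)`. Then every group of automorphisms of the tree generated by
automorphisms such that for some `n` all their sections of level `n` are in the group generated by `H n`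
and the `D i n` is in `C`. -/
theorem result (C : ∀ (G : Type) [Group G], Prop) (hC : Closed C)
    (X : Type) (A : ℕ → Set X) (hA : ∀ n, (A n).Finite) (H : ℕ → Subgroup (T X)) (k : ℕ)
    (ρ : Fin k → ℕ → X) (D : Fin k → ℕ → Subgroup (T X)) (h : RegularData A H ρ D)
    (hH : ∀ n, C (H n)) (hD : ∀ i n, C (D i n)) (K : Type) [Group K]
    (hK : GeneratedBy A (fun n => {r | ∃ g ∈ H n ⊔ ⨆ i, D i n, ∀ w, r w = g.1 w}) K) : C K := by
  obtain ⟨f, S, hf, hS, hs⟩ := hK
  have hdat : Pool.Agent.N59.CR.DirDat A H ρ D := by
    refine ⟨fun n a ha v x w hx => h.base n a ha v x w ?_,
      fun i n b hb v x w hx => h.directed i n b hb v x w ?_, h.sections, h.fixes, h.onRay,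
      h.offRay, fun i j n u hu => Pool.Agent.N59.CR.stop_of_regular (h.regular i j n u hu)⟩
    · rwa [Pool.Agent.Y524S.Vs_apply] at hx
    · rwa [Pool.Agent.Y524S.Vs_apply] at hx
  refine Pool.Agent.N59.CR.dir_closed hdat C hC hA hH hD K f hf S hS (fun s h => (hs s h).1)
    (fun s h => (hs s h).2.1) fun s h => ?_
  obtain ⟨-, -, n, h4⟩ := hs s h
  refine ⟨n, fun v hv => ?_⟩
  obtain ⟨r, ⟨g, hg, h6⟩, h5⟩ := h4 v hv
  exact ⟨g, hg, fun w => by rw [h5, h6]⟩

end Pool.Agent.Results.MP_6374fb_al.DirectedExtensions
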