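import Pool.Agent.N508.HF.Main
import Pool.Agent.N508.HF.Step
import Pool.Agent.N508.HF.Real
import Pool.Agent.N508.HF.Fit
import Pool.Agent.N508.HF.Iso
import Pool.Agent.N508.HF.Key
import Pool.Agent.N508.HF.Pc
import Pool.Agent.N508.HF.Zz
import Pool.Agent.N508.HF.Cch
import Pool.Agent.N508.HF.Jn

/-!
# Extensions with hyper-(nilpotent or locally finite) kernels

Let `C` be a class of groups with the closure properties `ClosedE` of the starting library that
contains all groups with abelian commutator subgroup; the groups which satisfy the K-theoretic
Farrell-Jones conjecture with coefficients and finite wreath products form such a class. Let `N` be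
a normal subgroup of `G` such that `G / N` is in `C`, and suppose that every nontrivial quotient
`N / M`, `M` normal in `G`, has a nontrivial normal subgroup `A / M` which is nilpotent or locally
finite (for instance, that `N` is hyperabelian, or a product of nilpotent normal subgroups). Nothing
is assumed about the action of `G`: the conjugates of `A` in `G` may generate a subgroup which is not
solvable, and `G` may have no nontrivial abelian normal subgroup. Then `G` is in `C`.

The starting library (`Pool.Agent.R941.FJ.hyper`) treats ascending series of `G`-invariant subgroups
of `N` with admissible factors.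

Idea of the proof. The join of the conjugates of `A` in `G` is modulo `M` locally finite, or a product
of nilpotent normal subgroups; so we may assume that `N` is such a product and that `G = N⟨g⟩`.

(1) Key. Let `1 ≠ z ∈ N`, `Z₀` the normal closure of `z` in `N`, `Z_i = gⁱ Z₀ g⁻ⁱ`, and `Z` the normal
closure of `z` in `G`, the product of the `Z_i`. If `z ^ n ∈ [Z, Z]` (`n = 1`, or `n > 0` and `z` of
infinite order) then `z ^ n` is in the product of the `[Z_i, Z_j]` with `|i|, |j| ≤ w`, for some `w`. After
`d` substitutions a positive power of `z` is in the `2 ^ d`-th term of the lower central series of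
the product of the `Z_i` with `|i| ≤ d w`, a nilpotent group of class at most `c (2 d w + 1)`, and
this is a contradiction for large `d`. So `z ^ n` is not in `[Z, Z]`.

(2) So for every finitely generated subgroup `M` of `N` there is a finite series of normal subgroups
of `G` from `1` to `N` such that every factor `J' / J` is abelian or not seen by `M`, that is,
`M ∩ J' ≤ J`: modulo a maximal normal subgroup not seen by `M` the group `M` sees all normal
subgroups in `N`, and then (1), applied to an element `z` of a minimal section of a polycyclic
series of `M`, gives an abelian one.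

(3) Realization. Let `M` be generated by a finite set `E` and its conjugate by `g`. By induction along
the series, with HNN extensions and fibre products over them, `M` embeds in a group `S` in `C` in
which the isomorphism `g (-) g⁻¹` from `⟨E⟩` to its image is induced by an element of `S`. By the
criterion of the starting library (`Pool.Agent.R779.FJ.t_crit`), `G` is in `C`.
-/

set_option autoImplicit false

namespace Pool.Agent.Results.MP_6374fb_al.HyperabelianKernels

open Pool.Agent.Y110.FJ (ClosedE)

/-- `C` contains all groups whose commutator subgroup is abelian. -/
def ContainsMetabelian (C : ∀ (G : Type) [Group G], Prop) : Prop :=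
  ∀ (S : Type) [Group S], (∀ a ∈ commutator S, ∀ b ∈ commutator S, a * b = b * a) → C S

/-- `A` is normalized by `N`. -/
def NormalizedBy {G : Type} [Group G] (N A : Subgroup G) : Prop :=
  ∀ u ∈ N, ∀ a ∈ A, u * a * u⁻¹ ∈ A

/-- `A` is nilpotent modulo `M`: some term of the lower central series of `A` lies in `M`. -/
def NilpotentModulo {G : Type} [Group G] (M A : Subgroup G) : Prop :=
  ∃ k : ℕ, A.lowerCentralSeries k ≤ M

/-- `A` is locally finite modulo `M`: every finite subset of `A` generates a subgroup `F` such that
`F ∩ M` has finite index in `F`. -/
def LocallyFiniteModulo {G : Type} [Group G] (M A : Subgroup G) : Prop :=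
  ∀ E : Set G, E.Finite → E ⊆ A → M.relIndex (Subgroup.closure E) ≠ 0

/-- Every nontrivial quotient `N / M`, `M` normal in `G`, has a nontrivial normal subgroup that is
nilpotent or locally finite. -/
def HyperNilpotentOrLocallyFinite {G : Type} [Group G] (N : Subgroup G) : Prop :=
  ∀ M : Subgroup G, M.Normal → M < N → ∃ A : Subgroup G, M < A ∧ A ≤ N ∧ NormalizedBy N A ∧
    (NilpotentModulo M A ∨ LocallyFiniteModulo M A)

/-- Let `C` be a class of groups with the closure properties `ClosedE` that contains all groups
with abelian commutator subgroup, `N` a normal subgroup of `G` with `G / N` in `C`, such that every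
nontrivial quotient `N / M`, `M` normal in `G`, has a nontrivial nilpotent or locally finite normal
subgroup. Then `G` is in `C`. -/
theorem result (C : ∀ (G : Type) [Group G], Prop) (hC : ClosedE C) (hmet : ContainsMetabelian C)
    (G : Type) [Group G] (N : Subgroup G) [N.Normal] (hQ : C (G ⧸ N))
    (hN : HyperNilpotentOrLocallyFinite N) : C G :=
  Pool.Agent.N508.HF.main
    (Pool.Agent.N508.HF.real_of_step Pool.Agent.N508.HF.t_step)
    (Pool.Agent.N508.HF.ch_of_z
      (Pool.Agent.N508.HF.z_of_key
        (Pool.Agent.N508.HF.key Pool.Agent.N508.HF.t_fit Pool.Agent.N508.HF.t_lcs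
          Pool.Agent.N508.HF.t_supi Pool.Agent.N508.HF.t_iso)
        Pool.Agent.N508.HF.t_pc (Pool.Agent.N508.HF.nil_of_fit Pool.Agent.N508.HF.t_fit))
      Pool.Agent.N508.HF.t_noe (Pool.Agent.N508.HF.nil_of_fit Pool.Agent.N508.HF.t_fit))
    (Pool.Agent.N508.HF.jn_of_fit Pool.Agent.N508.HF.t_fit) Pool.Agent.N508.HF.t_jl hC hmet N hQ hN

end Pool.Agent.Results.MP_6374fb_al.HyperabelianKernels
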