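import Pool.Agent.N24.FV.Main
import Pool.Agent.N24.FV.Cor

/-!
# Extensions whose kernel has a locally finite separating family of homomorphisms

`C` is any class of groups with the closure properties `ClosedE C`, all of which are known for the
class of the groups that satisfy the Full Farrell–Jones Conjecture; the Whitehead groups of the
torsion-free groups in this class are trivial.

Let `N` be a normal subgroup of `G` with `G ⧸ N` in `C`. Suppose that for each `g` in `G` there are a
group `P` in `C` and a family of homomorphisms `φ x : N → P`, `x ∈ X`, such that (`IsFam N g φ`)

* no element of `N` except `1` is in the kernels of all `φ x`;
* the restrictions of the `φ x` to a finitely generated subgroup of `N` fall into finitely many classes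
  under conjugation in `P`;
* the family is invariant under conjugation by `g`, up to conjugation in `P` and on each finitely
  generated subgroup of `N`.

Then `G` is in `C`. The family may be infinite and of any cardinality, the index set `X` may be
permuted by `g` in any way, and no homomorphism to a group in `C` is defined on `N ⟨g⟩`.

Examples. Let `Q` and `P` be in `C`, and let `Q` act on any set `X`.

* The semidirect product of the group of all functions `X → P` with finitely many values and `Q` is in
  `C` (`Pool.Agent.N24.FV.fvf_mem`); the family consists of the evaluations at the points of `X`.
* So are its subgroups, for instance `C_c(X, P) ⋊ Q` for a totally disconnected locally compact space `X`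
  on which `Q` acts by homeomorphisms, where `C_c(X, P)` is the group of the locally constant functions
  with compact support: the Boolean powers of `P`, and for discrete `X` the permutational wreath product.
  In general there is no `Q`-invariant measure on `X`, and `C_c(X, P)` is not a direct sum.
* `N` may be any group which is residually `P` and whose finitely generated subgroups `H` have, up to
  conjugation in `P`, only finitely many homomorphisms to `P` which extend to `N`; then every `G` which
  contains `N` as a normal subgroup with `G ⧸ N` in `C` is in `C`.

Outline of the proof. Let `g` be in `G` and `E` a finite subset of `N`, and let `H` be generated by `E` and
`g E g⁻¹`. The restrictions of the `φ x` to `H` give a finite set `L` of states, where the state `b` is a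
successor of the state `a` if `φ b (g n g⁻¹)` is conjugate to `φ a n` for `n ∈ E`, with one conjugating
element for all `n`. Each state has a successor and a predecessor, so there is a path `ω e : ℤ → L` through
each state `e` which is periodic at both ends, for a common period `m`. The sections `h ↦ φ (ω e i) h` on
`L × ℤ` and the shift realize the conjugation by `g` on `E` in the group of the pairs `(s, k)`, where `s` is a
function from `L × ℤ` to `P` which is periodic of period `m` near both ends and `k` is a power of the shift.
This group is in `C`, because modulo the functions with finite support it embeds in the product of
`P ≀ S_r` and `ℤ` for some `r`, and conjugation on finitely many functions with finite support is realized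
in finite wreath products. Now the criterion `MP_490288_al.RealizationCriterion` applies to `G`.
-/

set_option autoImplicit false

namespace Pool.Agent.Results.MP_6374fb_al.LocallyFiniteFamilies

open Pool.Agent.Y110.FJ Pool.Agent.N24.FV

theorem result (C : ∀ (G : Type) [Group G], Prop) (hC : ClosedE C)
    (G : Type) [Group G] (N : Subgroup G) [N.Normal] (hQ : C (G ⧸ N))
    (h : ∀ g : G, ∃ (P : Type) (_ : Group P) (X : Type) (φ : X → (N →* P)), C P ∧ IsFam N g φ) :
    C G :=
  main_fam hC G N hQ h

end Pool.Agent.Results.MP_6374fb_al.LocallyFiniteFamilies
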